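import Pool.Agent.Helper73K9.Infb.Semi

/-! # The ai-semiring `B₂¹` is inherently nonfinitely based

For every `N` there is an infinite word over a finite alphabet such that the flat semiring
of its factors satisfies all identities of `B₂¹` in at most `N` variables. It is finitely
generated and infinite. -/

namespace Pool.Agent.Results.MP_f3bb61_al.BrandtMonoidINFB

open Pool.Agent.Helper73K9.Infb

theorem VarsLt_mono {N M : ℕ} (h : N ≤ M) (t : Term) (ht : t.VarsLt N) : t.VarsLt M := by
  induction t with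
  | var n => exact lt_of_lt_of_le ht h
  | add s t ih1 ih2 => exact ⟨ih1 ht.1, ih2 ht.2⟩
  | mul s t ih1 ih2 => exact ⟨ih1 ht.1, ih2 ht.2⟩

theorem exists_bound (t : Term) : ∃ N, t.VarsLt N := by
  induction t with
  | var n => exact ⟨n + 1, Nat.lt_succ_self n⟩
  | add s t ih1 ih2 =>
    obtain ⟨N, hN⟩ := ih1
    obtain ⟨M, hM⟩ := ih2
    exact ⟨max N M, VarsLt_mono (le_max_left _ _) _ hN, VarsLt_mono (le_max_right _ _) _ hM⟩
  | mul s t ih1 ih2 =>
    obtain ⟨N, hN⟩ := ih1
    obtain ⟨M, hM⟩ := ih2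
    exact ⟨max N M, VarsLt_mono (le_max_left _ _) _ hN, VarsLt_mono (le_max_right _ _) _ hM⟩

theorem exists_bound_set {F : Set (Term × Term)} (hF : F.Finite) :
    ∃ N, 3 ≤ N ∧ ∀ e ∈ F, e.1.VarsLt N ∧ e.2.VarsLt N := by
  induction F, hF using Set.Finite.induction_on with
  | empty => exact ⟨3, le_rfl, by simp⟩
  | @insert e F _ _ ih =>
    obtain ⟨N, h3, hN⟩ := ih
    obtain ⟨M1, hM1⟩ := exists_bound e.1
    obtain ⟨M2, hM2⟩ := exists_bound e.2
    refine ⟨max N (max M1 M2), le_trans h3 (le_max_left _ _), ?_⟩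
    intro e' he'
    rcases he' with rfl | he'
    · exact ⟨VarsLt_mono (le_trans (le_max_left _ _) (le_max_right _ _)) _ hM1,
        VarsLt_mono (le_trans (le_max_right _ _) (le_max_right _ _)) _ hM2⟩
    · exact ⟨VarsLt_mono (le_max_left _ _) _ (hN e' he').1,
        VarsLt_mono (le_max_left _ _) _ (hN e' he').2⟩

/-- An algebra which satisfies the identities of `B₂¹` in three variables is an
ai-semiring. -/
theorem isAiSemiring_of {S : Type} [Add S] [Mul S] {N : ℕ} (hN : 3 ≤ N)
    (h : ∀ s t : Term, s.VarsLt N → t.VarsLt N → Holds B21 s t → Holds S s t) :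
    IsAiSemiring S := by
  have a := isAiSemiring_B21
  have h0 : (0 : ℕ) < N := by omega
  have h1 : (1 : ℕ) < N := by omega
  have h2 : (2 : ℕ) < N := by omega
  have key : ∀ (x y z : S) (s t : Term), s.VarsLt N → t.VarsLt N → Holds B21 s t →
      s.eval (fun n => if n = 0 then x else if n = 1 then y else z) =
      t.eval (fun n => if n = 0 then x else if n = 1 then y else z) :=
    fun x y z s t hs ht hB => h s t hs ht hB _
  refine ⟨?_, ?_, ?_, ?_, ?_, ?_⟩
  · intro x y z
    exact key x y z (.add (.add (.var 0) (.var 1)) (.var 2))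
      (.add (.var 0) (.add (.var 1) (.var 2))) ⟨⟨h0, h1⟩, h2⟩ ⟨h0, h1, h2⟩
      (fun f => a.add_assoc _ _ _)
  · intro x y
    exact key x y y (.add (.var 0) (.var 1)) (.add (.var 1) (.var 0)) ⟨h0, h1⟩ ⟨h1, h0⟩
      (fun f => a.add_comm _ _)
  · intro x
    exact key x x x (.add (.var 0) (.var 0)) (.var 0) ⟨h0, h0⟩ h0 (fun f => a.add_idem _)
  · intro x y z
    exact key x y z (.mul (.mul (.var 0) (.var 1)) (.var 2))
      (.mul (.var 0) (.mul (.var 1) (.var 2))) ⟨⟨h0, h1⟩, h2⟩ ⟨h0, h1, h2⟩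
      (fun f => a.mul_assoc _ _ _)
  · intro x y z
    exact key x y z (.mul (.var 0) (.add (.var 1) (.var 2)))
      (.add (.mul (.var 0) (.var 1)) (.mul (.var 0) (.var 2))) ⟨h0, h1, h2⟩
      ⟨⟨h0, h1⟩, h0, h2⟩ (fun f => a.mul_add _ _ _)
  · intro x y z
    exact key x y z (.mul (.add (.var 0) (.var 1)) (.var 2))
      (.add (.mul (.var 0) (.var 2)) (.mul (.var 1) (.var 2))) ⟨⟨h0, h1⟩, h2⟩
      ⟨⟨h0, h2⟩, h1, h2⟩ (fun f => a.add_mul _ _ _)

/-- **Theorem.** The ai-semiring `B₂¹` is inherently nonfinitely based. Equivalently, no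
locally finite variety of ai-semirings which is defined by finitely many identities
contains `B₂¹`: a finite set `F` of identities of `B₂¹` is always satisfied by some
finitely generated infinite ai-semiring. -/
theorem result : InherentlyNonfinitelyBased B21 ∧
    ∀ F : Set (Term × Term), F.Finite → Sat B21 F →
      ∃ (S : Type) (_ : Add S) (_ : Mul S), IsAiSemiring S ∧ Sat S F ∧ FinGen S ∧
        Infinite S := by
  have main : ∀ F : Set (Term × Term), F.Finite → Sat B21 F →
      ∃ (S : Type) (_ : Add S) (_ : Mul S), IsAiSemiring S ∧ Sat S F ∧ FinGen S ∧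
        Infinite S := by
    intro F hF hB
    obtain ⟨N, h3, hN⟩ := exists_bound_set hF
    have hS := fun s t hs ht h => holds_Sg N (3 * (2 * N + 3)) rfl s t hs ht h
    exact ⟨Sg (3 * (2 * N + 3)), inferInstance, inferInstance, isAiSemiring_of h3 hS,
      fun e he => hS e.1 e.2 (hN e he).1 (hN e he).2 (hB e he),
      finGen_Sg (by omega), infinite_Sg _⟩
  refine ⟨?_, main⟩
  intro E hE hloc hfb
  obtain ⟨F, hF, hFE⟩ := hfb
  obtain ⟨S, iA, iM, _, hSF, hgen, hinf⟩ := main F hF ((hFE B21).2 hE)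
  have hfin := hloc S ((hFE S).1 hSF) hgen
  exact hinf.not_finite hfin

end Pool.Agent.Results.MP_f3bb61_al.BrandtMonoidINFB
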